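import Pool.Agent.Y755.AX.Stm

/-! Block factors. -/

set_option autoImplicit false

open MeasureTheory ProbabilityTheory

open scoped Classical

namespace Pool.Agent.Y442.AX.BF

open Pool.Agent.Y755.AX

section
variable {α : Type} [MeasurableSpace α]

theorem Fs_le (S : Set ℤ) : Fs (α := α) S ≤ MeasurableSpace.pi :=
  iSup₂_le fun x _ => (measurable_pi_apply x).comap_le

theorem to_Fs {Ω : Type} {m : MeasurableSpace Ω} {S : Set ℤ} {f : Ω → ℤ → α}
    (h : ∀ x ∈ S, Measurable[m] fun ω => f ω x) : Measurable[m, Fs S] f := by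
  rw [measurable_iff_comap_le, Fs, MeasurableSpace.comap_iSup]
  refine iSup_le fun x => ?_
  rw [MeasurableSpace.comap_iSup]
  refine iSup_le fun hx => ?_
  rw [MeasurableSpace.comap_comp]
  exact (h x hx).comap_le

theorem coord {S : Set ℤ} {x : ℤ} (hx : x ∈ S) :
    Measurable[Fs (α := α) S] fun f : ℤ → α => f x := by
  rw [measurable_iff_comap_le]
  exact le_iSup₂ (f := fun (x : ℤ) (_ : x ∈ S) =>
    MeasurableSpace.comap (fun f : ℤ → α => f x) inferInstance) x hx

/-- the shift by `c` -/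
def s (c : ℤ) (f : ℤ → α) : ℤ → α := fun x => f (x + c)

theorem s_meas (c : ℤ) : Measurable (s (α := α) c) :=
  measurable_pi_iff.2 fun x => measurable_pi_apply (x + c)

theorem s_measFs (c : ℤ) {S T : Set ℤ} (h : ∀ x ∈ S, x + c ∈ T) :
    Measurable[Fs T, Fs S] (s (α := α) c) :=
  to_Fs fun x hx => coord (h x hx)

theorem s_map {μ : Measure (ℤ → α)} (h : Sta μ) (n : ℕ) : μ.map (s (n : ℤ)) = μ := by
  induction n with
  | zero =>
    have e : (s ((0 : ℕ) : ℤ) : (ℤ → α) → ℤ → α) = id := by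
      funext f x
      simp [s]
    rw [e, Measure.map_id]
  | succ n ih =>
    have e : (s ((n + 1 : ℕ) : ℤ) : (ℤ → α) → ℤ → α) = sh ∘ s (n : ℤ) := by
      funext f x
      simp only [s, sh, Function.comp]
      congr 1
      push_cast
      ring
    have hs : Measurable (sh : (ℤ → α) → ℤ → α) := s_meas 1
    rw [e, ← Measure.map_map hs (s_meas _), ih]
    exact h

theorem s_map_neg {μ : Measure (ℤ → α)} (h : Sta μ) (n : ℕ) : μ.map (s (-(n : ℤ))) = μ := by
  conv_lhs => rw [← s_map h n]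
  rw [Measure.map_map (s_meas _) (s_meas _)]
  have e : (s (-(n : ℤ)) ∘ s (n : ℤ) : (ℤ → α) → ℤ → α) = id := by
    funext f x
    simp [s]
  rw [e, Measure.map_id]

/-- independence about the position `n` -/
theorem dep_shift {μ : Measure (ℤ → α)} {k : ℕ} (h : Sta μ) (hd : Dep k μ) (n : ℕ) :
    Indep (Fs {x : ℤ | x < n}) (Fs {x : ℤ | (k : ℤ) + n ≤ x}) μ := by
  rw [Indep_iff]
  intro t1 t2 h1 h2
  have m1 : MeasurableSet[Fs {x : ℤ | x < 0}] (s (-(n : ℤ)) ⁻¹' t1) :=
    s_measFs (-(n : ℤ)) (S := {x : ℤ | x < n}) (T := {x : ℤ | x < 0})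
      (fun x hx => by
        simp only [Set.mem_ofPred_eq] at hx ⊢
        omega) h1
  have m2 : MeasurableSet[Fs {x : ℤ | (k : ℤ) ≤ x}] (s (-(n : ℤ)) ⁻¹' t2) :=
    s_measFs (-(n : ℤ)) (S := {x : ℤ | (k : ℤ) + n ≤ x}) (T := {x : ℤ | (k : ℤ) ≤ x})
      (fun x hx => by
        simp only [Set.mem_ofPred_eq] at hx ⊢
        omega) h2
  have h3 := (Indep_iff _ _ _).1 hd _ _ m1 m2
  have g1 := Fs_le _ _ h1
  have g2 := Fs_le _ _ h2
  rw [← Set.preimage_inter, ← Measure.map_apply (s_meas _) (g1.inter g2),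
    ← Measure.map_apply (s_meas _) g1, ← Measure.map_apply (s_meas _) g2, s_map_neg h] at h3
  exact h3

end

/-- functions of finitely many coordinates are measurable -/
theorem loc_meas {α β : Type} [Fintype α] [MeasurableSpace α] [MeasurableSingletonClass α]
    [MeasurableSpace β] [Nonempty (ℤ → α)] (T : Finset ℤ) (g : (ℤ → α) → β)
    (hg : ∀ ω ω' : ℤ → α, (∀ x ∈ T, ω x = ω' x) → g ω = g ω') :
    Measurable[Fs (T : Set ℤ)] g := by
  obtain ⟨ω0⟩ := (inferInstance : Nonempty (ℤ → α))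
  let g' : ({x : ℤ // x ∈ T} → α) → β := fun p => g fun x =>
    if h : x ∈ T then p ⟨x, h⟩ else ω0 x
  have e : g = g' ∘ fun ω : ℤ → α => fun x : {x : ℤ // x ∈ T} => ω x.1 := by
    funext ω
    refine hg _ _ fun x hx => ?_
    simp only [dif_pos hx]
  rw [e]
  have h2 : Measurable[Fs (T : Set ℤ), MeasurableSpace.pi]
      (fun ω : ℤ → α => fun x : {x : ℤ // x ∈ T} => ω x.1) := by
    rw [measurable_iff_comap_le, MeasurableSpace.pi, MeasurableSpace.comap_iSup]
    refine iSup_le fun x => ?_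
    rw [MeasurableSpace.comap_comp]
    exact (coord (S := (T : Set ℤ)) (by exact_mod_cast x.2)).comap_le
  intro t ht
  rw [Set.preimage_comp]
  exact h2 (measurable_of_countable g' ht)

theorem t_BF : S_BF := by
  intro α β _ _ _ _ _ _ r k μ Γ hμ hS hD hsh hloc
  have hne : Nonempty (ℤ → α) := nonempty_of_isProbabilityMeasure μ
  have hc : ∀ x : ℤ, Measurable[Fs {y : ℤ | |y - x| ≤ r}] fun ω => Γ ω x := by
    intro x
    have h1 := loc_meas (Finset.Icc (x - r) (x + r)) (fun ω => Γ ω x) fun ω ω' h =>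
      hloc ω ω' x fun y hy => h y (by
        rw [Finset.mem_Icc]
        rw [abs_le] at hy
        omega)
    have e : ((Finset.Icc (x - r) (x + r) : Finset ℤ) : Set ℤ) = {y : ℤ | |y - x| ≤ r} := by
      ext y
      rw [Finset.mem_coe, Finset.mem_Icc, Set.mem_ofPred_eq, abs_le]
      omega
    rwa [e] at h1
  have hm : Measurable Γ := measurable_pi_iff.2 fun x => (hc x).mono (Fs_le _) le_rfl
  have hFs : ∀ S T : Set ℤ, (∀ x ∈ S, ∀ y : ℤ, |y - x| ≤ r → y ∈ T) →
      Measurable[Fs T, Fs S] Γ := by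
    intro S T hST
    refine to_Fs fun x hx => (hc x).mono ?_ le_rfl
    refine iSup₂_le fun y hy => ?_
    exact le_iSup₂ (f := fun (x : ℤ) (_ : x ∈ T) =>
      MeasurableSpace.comap (fun f : ℤ → α => f x) inferInstance) y (hST x hx y hy)
  refine ⟨hm, ?_, ?_⟩
  · have h1 : Measurable (sh : (ℤ → α) → ℤ → α) := s_meas 1
    have h2 : Measurable (sh : (ℤ → β) → ℤ → β) := s_meas 1
    have e : (sh ∘ Γ : (ℤ → α) → ℤ → β) = Γ ∘ sh := by
      funext ω
      exact (hsh ω).symm
    show (μ.map Γ).map sh = μ.map Γ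
    rw [Measure.map_map h2 hm, e, ← Measure.map_map hm h1]
    congr 1
  · show Indep _ _ _
    rw [Indep_iff]
    intro t1 t2 h1 h2
    have g1 := Fs_le _ _ h1
    have g2 := Fs_le _ _ h2
    rw [Measure.map_apply hm (g1.inter g2), Measure.map_apply hm g1, Measure.map_apply hm g2,
      Set.preimage_inter]
    refine (Indep_iff _ _ _).1 (dep_shift hS hD r) _ _ ?_ ?_
    · exact hFs {x : ℤ | x < 0} {x : ℤ | x < r} (fun x hx y hy => by
        simp only [Set.mem_ofPred_eq] at hx ⊢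
        rw [abs_le] at hy
        omega) h1
    · exact hFs {x : ℤ | ((k + 2 * r : ℕ) : ℤ) ≤ x} {x : ℤ | (k : ℤ) + r ≤ x} (fun x hx y hy => by
        simp only [Set.mem_ofPred_eq] at hx ⊢
        rw [abs_le] at hy
        push_cast at hx
        omega) h2

end Pool.Agent.Y442.AX.BF
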