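import Pool.Agent.Y755.AX.Stm

/-! The distance function of a configuration with bounded gaps. -/

set_option autoImplicit false

open scoped Classical

namespace Pool.Agent.Y442.AX.DMA

open Pool.Agent.Y755.AX

noncomputable section

/-- one term of the infimum -/
def tm (m : ℕ) (A : ℤ → Bool) (x : ℝ) (n : ℤ) : ℝ :=
  if A n = true then min 2 |x - n / 4 ^ m| else 2

theorem tm_nonneg (m : ℕ) (A : ℤ → Bool) (x : ℝ) (n : ℤ) : 0 ≤ tm m A x n := by
  unfold tm
  split_ifs
  · positivity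
  · norm_num

theorem tm_le (m : ℕ) (A : ℤ → Bool) (x : ℝ) (n : ℤ) : tm m A x n ≤ 2 := by
  unfold tm
  split_ifs
  · exact min_le_left _ _
  · norm_num

theorem tm_bdd (m : ℕ) (A : ℤ → Bool) (x : ℝ) : BddBelow (Set.range (tm m A x)) :=
  ⟨0, by rintro _ ⟨n, rfl⟩; exact tm_nonneg m A x n⟩

theorem Dm_le (m : ℕ) (A : ℤ → Bool) (x : ℝ) (n : ℤ) : Dm m A x ≤ tm m A x n :=
  ciInf_le (tm_bdd m A x) n

theorem tm_lip (m : ℕ) (A : ℤ → Bool) (x y : ℝ) (n : ℤ) : tm m A x n ≤ tm m A y n + |x - y| := by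
  unfold tm
  split_ifs
  · have h1 := abs_nonneg (x - y)
    rcases min_cases (2 : ℝ) |y - n / 4 ^ m| with ⟨h, -⟩ | ⟨h, -⟩
    · rw [h]
      have := min_le_left (2 : ℝ) |x - n / 4 ^ m|
      linarith
    · rw [h]
      have h2 := min_le_right (2 : ℝ) |x - n / 4 ^ m|
      have h3 : |x - n / 4 ^ m| ≤ |x - y| + |y - n / 4 ^ m| := abs_sub_le _ _ _
      linarith
  · have h1 := abs_nonneg (x - y)
    linarith

/-- the infimum is attained -/
theorem attained {m : ℕ} {A : ℤ → Bool} (h : Gap (4 ^ m) (4 * 4 ^ m) A) (x : ℝ) :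
    ∃ n : ℤ, A n = true ∧ Dm m A x = |x - n / 4 ^ m| := by
  obtain ⟨S, hS⟩ : ∃ S : ℝ, S = 4 ^ m := ⟨_, rfl⟩
  have hS0 : 0 < S := by rw [hS]; positivity
  obtain ⟨y, hy1, hy2, hy3⟩ := h.2 ⌈(x - 2) * S⌉
  have hyS1 : (x - 2) * S ≤ y := (Int.le_ceil _).trans (by exact_mod_cast hy1)
  have hyS2 : (y : ℝ) ≤ (x + 2) * S := by
    have h1 : (y : ℝ) + 1 ≤ ⌈(x - 2) * S⌉ + 4 * S := by
      have h2 : y + 1 ≤ ⌈(x - 2) * S⌉ + ((4 * 4 ^ m : ℕ) : ℤ) := hy2
      have h3 : ((y + 1 : ℤ) : ℝ) ≤ ((⌈(x - 2) * S⌉ + ((4 * 4 ^ m : ℕ) : ℤ) : ℤ) : ℝ) := by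
        exact_mod_cast h2
      push_cast at h3
      rwa [← hS] at h3
    have h2 := Int.ceil_lt_add_one ((x - 2) * S)
    nlinarith
  have hy : |x - y / S| ≤ 2 := by
    have e : x - y / S = (x * S - y) / S := by field_simp
    rw [e, abs_div, abs_of_pos hS0, div_le_iff₀ hS0, abs_le]
    constructor <;> nlinarith
  obtain ⟨P, hP⟩ : ∃ P : Finset ℤ, P = (Finset.Icc ⌈(x - 2) * S⌉ ⌊(x + 2) * S⌋).filter
    fun n => A n = true := ⟨_, rfl⟩
  have hyP : y ∈ P := by
    rw [hP, Finset.mem_filter, Finset.mem_Icc]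
    exact ⟨⟨hy1, Int.le_floor.2 hyS2⟩, hy3⟩
  obtain ⟨n, hn, hmin⟩ := P.exists_min_image (fun n : ℤ => |x - n / S|) ⟨y, hyP⟩
  have hnA : A n = true := by
    rw [hP, Finset.mem_filter] at hn
    exact hn.2
  have hn2 : |x - n / S| ≤ 2 := (hmin y hyP).trans hy
  refine ⟨n, hnA, le_antisymm ?_ ?_⟩
  · refine (Dm_le m A x n).trans ?_
    unfold tm
    rw [if_pos hnA]
    exact min_le_right _ _
  · refine le_ciInf fun k => ?_
    rw [← hS]
    split_ifs with hk
    · refine le_min hn2 ?_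
      by_cases hk2 : |x - k / S| ≤ 2
      · apply hmin k
        rw [hP, Finset.mem_filter, Finset.mem_Icc]
        have e : x - k / S = (x * S - k) / S := by field_simp
        rw [e, abs_div, abs_of_pos hS0, div_le_iff₀ hS0, abs_le] at hk2
        refine ⟨⟨Int.ceil_le.2 (by nlinarith), Int.le_floor.2 (by nlinarith)⟩, hk⟩
      · exact hn2.trans (not_le.1 hk2).le
    · exact hn2

theorem zero_at {m : ℕ} {A : ℤ → Bool} {n : ℤ} (h : A n = true) : Dm m A (n / 4 ^ m) = 0 := by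
  apply le_antisymm
  · refine (Dm_le m A _ n).trans ?_
    unfold tm
    rw [if_pos h, sub_self, abs_zero]
    exact min_le_right _ _
  · exact Real.iInf_nonneg fun k => tm_nonneg m A _ k

theorem t_DMA : S_DMA := by
  intro m A h
  have hS0 : (0 : ℝ) < 4 ^ m := by positivity
  have lip : ∀ x y : ℝ, Dm m A x - |x - y| ≤ Dm m A y := by
    intro x y
    refine le_ciInf fun n => ?_
    have h1 := Dm_le m A x n
    have h2 := tm_lip m A x y n
    change Dm m A x - |x - y| ≤ tm m A y n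
    linarith
  refine ⟨fun x y => ?_, fun x => ⟨?_, ?_⟩, fun x => ?_, fun x y => ?_⟩
  · have h1 := lip x y
    have h2 := lip y x
    rw [abs_sub_comm y x] at h2
    rw [abs_le]
    constructor <;> linarith
  · exact Real.iInf_nonneg fun k => tm_nonneg m A _ k
  · exact (Dm_le m A x 0).trans (tm_le m A x 0)
  · obtain ⟨n, hn, hx⟩ := attained h x
    rcases le_total x (n / 4 ^ m) with h1 | h1
    · left
      rw [hx, abs_of_nonpos (by linarith)]
      have e : x + -(x - n / 4 ^ m) = n / 4 ^ m := by ring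
      rw [e]
      exact zero_at hn
    · right
      rw [hx, abs_of_nonneg (by linarith)]
      have e : x - (x - n / 4 ^ m) = n / 4 ^ m := by ring
      rw [e]
      exact zero_at hn
  · obtain ⟨n, hn, hx⟩ := attained h x
    obtain ⟨k, hk, hy⟩ := attained h y
    rw [hx, hy]
    by_cases hnk : n = k
    · subst hnk
      refine (min_le_left _ _).trans ?_
      have := abs_sub_le x (n / 4 ^ m) y
      rwa [abs_sub_comm (n / 4 ^ m : ℝ) y] at this
    · refine (min_le_right _ _).trans ?_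
      have h1 : 1 ≤ |(n : ℝ) / 4 ^ m - k / 4 ^ m| := by
        rw [← sub_div, abs_div, abs_of_pos hS0, le_div_iff₀ hS0, one_mul]
        rcases lt_or_gt_of_ne hnk with h2 | h2
        · have h3 := h.1 n k h2 hn hk
          have h4 : (((4 ^ m : ℕ) : ℤ) : ℝ) ≤ ((k - n : ℤ) : ℝ) := by exact_mod_cast h3
          push_cast at h4
          rw [abs_sub_comm]
          exact h4.trans (le_abs_self _)
        · have h3 := h.1 k n h2 hk hn
          have h4 : (((4 ^ m : ℕ) : ℤ) : ℝ) ≤ ((n - k : ℤ) : ℝ) := by exact_mod_cast h3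
          push_cast at h4
          exact h4.trans (le_abs_self _)
      have h2 : |(n : ℝ) / 4 ^ m - k / 4 ^ m| ≤
          |(n : ℝ) / 4 ^ m - x| + |x - y| + |y - k / 4 ^ m| := by
        have a1 := abs_sub_le ((n : ℝ) / 4 ^ m) x (k / 4 ^ m)
        have a2 := abs_sub_le x y ((k : ℝ) / 4 ^ m)
        linarith
      rw [abs_sub_comm ((n : ℝ) / 4 ^ m) x] at h2
      linarith

end

end Pool.Agent.Y442.AX.DMA
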