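import Pool.Agent.Y755.AX.Stm

/-! The distances of local maxima of a proper 4-colouring. -/

set_option autoImplicit false

open scoped Classical

namespace Pool.Agent.Y442.AX.MXD

open Pool.Agent.Y755.AX

theorem t_MXD : S_MXD := by
  intro Y hY
  constructor
  · intro x y hxy hx hy
    simp only [mx, decide_eq_true_eq] at hx hy
    by_contra h
    push_cast at h
    have e : y = x + 1 := by omega
    subst e
    have h1 := hx.2
    have h2 := hy.1
    rw [add_sub_cancel_right] at h2
    exact absurd h1 (not_lt.2 h2.le)
  · intro x
    by_contra h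
    push Not at h
    have st : ∀ i, x ≤ i → i < x + 6 → Y (i - 1) < Y i → Y i < Y (i + 1) := by
      intro i h1 h2 h3
      have h4 := h i h1 (by push_cast; exact h2)
      have h6 : ¬ Y (i + 1) < Y i := by
        intro h7
        apply h4
        simp only [mx, decide_eq_true_eq]
        exact ⟨h3, h7⟩
      exact lt_of_le_of_ne (not_lt.1 h6) (hY i)
    have e1 : x + 6 - 1 + 1 = x + 6 := by ring
    rcases lt_or_gt_of_ne (hY (x + 2)) with h1 | h1
    · have a3 := st (x + 3) (by omega) (by omega) (by
        rw [show x + 3 - 1 = x + 2 by ring]
        rw [show x + 2 + 1 = x + 3 by ring] at h1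
        exact h1)
      have a4 := st (x + 3 + 1) (by omega) (by omega) (by
        rw [show x + 3 + 1 - 1 = x + 3 by ring]; exact a3)
      have a5 := st (x + 3 + 1 + 1) (by omega) (by omega) (by
        rw [show x + 3 + 1 + 1 - 1 = x + 3 + 1 by ring]; exact a4)
      rw [show x + 2 + 1 = x + 3 by ring] at h1
      have b0 := (Y (x + 3 + 1 + 1 + 1)).2
      simp only [Fin.lt_def] at h1 a3 a4 a5
      omega
    · -- descent
      have a2 : Y (x + 2) < Y (x + 1) := by
        by_contra hn
        have h2 : Y (x + 1) < Y (x + 2) := by
          refine lt_of_le_of_ne (not_lt.1 hn) ?_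
          have := hY (x + 1)
          rwa [show x + 1 + 1 = x + 2 by ring] at this
        have h3 := st (x + 2) (by omega) (by omega) (by
          rw [show x + 2 - 1 = x + 1 by ring]; exact h2)
        exact absurd h1 (not_lt.2 h3.le)
      have a1 : Y (x + 1) < Y x := by
        by_contra hn
        have h2 : Y x < Y (x + 1) := lt_of_le_of_ne (not_lt.1 hn) (hY x)
        have h3 := st (x + 1) (by omega) (by omega) (by
          rw [show x + 1 - 1 = x by ring]; exact h2)
        rw [show x + 1 + 1 = x + 2 by ring] at h3
        exact absurd a2 (not_lt.2 h3.le)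
      have a0 : Y x < Y (x - 1) := by
        by_contra hn
        have h2 : Y (x - 1) < Y x := by
          refine lt_of_le_of_ne (not_lt.1 hn) ?_
          have := hY (x - 1)
          rwa [show x - 1 + 1 = x by ring] at this
        have h3 := st x (by omega) (by omega) h2
        exact absurd a1 (not_lt.2 h3.le)
      have b0 := (Y (x - 1)).2
      simp only [Fin.lt_def] at h1 a2 a1 a0
      omega

end Pool.Agent.Y442.AX.MXD
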